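import Mathlib
import Pool.Agent.TH876.Proj

/-!
# Points of `a + b + c = 0` whose radical has many large coprime divisors
-/

set_option autoImplicit false

namespace Pool.Agent.Results.MP_a793bb_nt.CoprimeDivisors

open NumberField IsDedekindDomain

/-- the set `I_K(P)` of the primes at which the absolute values of the three coordinates are not
all equal -/
def supp {K : Type} [Field K] [NumberField K] (x : Fin 3 → K) : Set (HeightOneSpectrum (𝓞 K)) :=
  {v | ¬ (FinitePlace.mk v (x 0) = FinitePlace.mk v (x 1) ∧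
    FinitePlace.mk v (x 1) = FinitePlace.mk v (x 2))}

/-- the radical `rad(P)`: the sum of `log N(v)` over `I_K(P)`, divided by the degree of `K` -/
noncomputable def rad {K : Type} [Field K] [NumberField K] (x : Fin 3 → K) : ℝ :=
  (∑ᶠ v ∈ supp x, Real.log (Ideal.absNorm v.asIdeal : ℝ)) / (Module.finrank ℚ K : ℝ)

/-- the points `P = (a : b : c)` over `K` with `a + b + c = 0`, `abc ≠ 0`,
`exp ([K : ℚ] rad(P)) ≤ X`, of any height, for which `I_K(P)` contains `6 j + 1` pairwise disjoint
sets of primes such that for each of them the product of the norms exceeds `Y` -/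
def Points (K : Type) [Field K] [NumberField K] (j : ℕ) (X Y : ℝ) :
    Set (Projectivization K (Fin 3 → K)) :=
  {P | ∃ (x : Fin 3 → K) (hx : x ≠ 0), P = Projectivization.mk K x hx ∧ x 0 + x 1 + x 2 = 0 ∧
    x 0 * x 1 * x 2 ≠ 0 ∧ Real.exp ((Module.finrank ℚ K : ℝ) * rad x) ≤ X ∧
    ∃ s : Fin (6 * j + 1) → Finset (HeightOneSpectrum (𝓞 K)),
      Pairwise (fun i i' => Disjoint (s i) (s i')) ∧
      ∀ i, (s i : Set (HeightOneSpectrum (𝓞 K))) ⊆ supp x ∧
        Y < ∏ v ∈ s i, (Ideal.absNorm v.asIdeal : ℝ)}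

/-- For every `n` and `j` there are `C` and `k` such that over every number field of degree `n`
there are, for `X ≥ 3` and `Y > 0`, at most `C (X / Y ^ j) (log X) ^ k` points `P` with
`a + b + c = 0`, `abc ≠ 0` whose radical has norm at most `X` and is divisible by `6 j + 1` pairwise
coprime ideals of norm greater than `Y`. -/
theorem result (n j : ℕ) : ∃ (C : ℝ) (k : ℕ), ∀ (K : Type) [Field K] [NumberField K],
    Module.finrank ℚ K = n → ∀ X : ℝ, 3 ≤ X → ∀ Y : ℝ, 0 < Y →
      (Points K j X Y).Finite ∧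
      ((Points K j X Y).ncard : ℝ) ≤ C * (X / Y ^ j) * Real.log X ^ k := by
  classical
  obtain ⟨C, k, hC, h⟩ := Pool.Agent.TH876.Loc.count_splits n j
  refine ⟨C, k, ?_⟩
  intro K _ _ hn X hX Y hY
  have hX0 : 0 < X := by linarith
  have hL : 0 ≤ Real.log X := Real.log_nonneg (by linarith)
  have hd : (Module.finrank ℚ K : ℝ) ≠ 0 := by
    have : 0 < Module.finrank ℚ K := Module.finrank_pos
    exact_mod_cast this.ne'
  refine Pool.Agent.TH876.Loc.transfer (Points K j X Y)
    (fun t => Pool.Agent.TH876.Loc.nn (Pool.Agent.TH876.Loc.sp t) ≤ X ∧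
      Pool.Agent.TH876.Loc.Splits Y (6 * j + 1) (Pool.Agent.TH876.Loc.sp t))
    (C * (X / Y ^ j) * Real.log X ^ k) (by positivity) ?_
    (fun E hE => h K hn X hX Y hY E hE)
  rintro P ⟨x, hx, hP, hs, hne, hr, s, hsd, hsY⟩
  refine ⟨x, hx, hP, hs, hne, ?_, ?_⟩
  · unfold rad at hr
    rw [Pool.Agent.TH876.Loc.exp_log_nn (x := x 0 / x 1) (I := supp x)
      (Pool.Agent.TH876.Loc.sp_of_triple hs hne) hd] at hr
    exact hr
  · refine ⟨fun v => if h : ∃ i : Fin (6 * j + 1), v ∈ s i then
      (Classical.choose h : Fin (6 * j + 1)).val else 6 * j + 1, ?_⟩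
    intro i hi
    obtain ⟨hsub, hYi⟩ := hsY ⟨i, hi⟩
    refine lt_of_lt_of_le hYi ?_
    have hsub2 : s ⟨i, hi⟩ ⊆ (Pool.Agent.TH876.Loc.sp (x 0 / x 1)).filter (fun v =>
        (if h : ∃ i : Fin (6 * j + 1), v ∈ s i then
          (Classical.choose h : Fin (6 * j + 1)).val else 6 * j + 1) = i) := by
      intro v hv
      rw [Finset.mem_filter]
      refine ⟨(Pool.Agent.TH876.Loc.sp_of_triple hs hne v).2 (hsub hv), ?_⟩
      have hex : ∃ i : Fin (6 * j + 1), v ∈ s i := ⟨⟨i, hi⟩, hv⟩
      rw [dif_pos hex]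
      have h1 := Classical.choose_spec hex
      by_contra hcon
      have h2 : Classical.choose hex ≠ ⟨i, hi⟩ := fun h => hcon (congrArg Fin.val h)
      exact Finset.disjoint_left.1 (hsd h2) h1 hv
    exact Pool.Agent.TH876.Loc.nn_mono hsub2

end Pool.Agent.Results.MP_a793bb_nt.CoprimeDivisors
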