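import Mathlib
import Pool.Agent.TH876.Proj

/-!
# The number of points of `a + b + c = 0` with bounded radical over number fields of degree `n`

The abc conjecture bounds the height of a point by its radical. Here all points are counted by
their radical, without any restriction on the height.
-/

set_option autoImplicit false

namespace Pool.Agent.Results.MP_a793bb_nt.PointsByRadical

open NumberField IsDedekindDomain

/-- the set `I_K(P)` of the primes at which the absolute values of the three coordinates are not
all equal -/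
def supp {K : Type} [Field K] [NumberField K] (x : Fin 3 → K) : Set (HeightOneSpectrum (𝓞 K)) :=
  {v | ¬ (FinitePlace.mk v (x 0) = FinitePlace.mk v (x 1) ∧
    FinitePlace.mk v (x 1) = FinitePlace.mk v (x 2))}

/-- the radical `rad(P)`: the sum of `log N(v)` over `I_K(P)`, divided by the degree of `K` -/
noncomputable def rad {K : Type} [Field K] [NumberField K] (x : Fin 3 → K) : ℝ :=
  (∑ᶠ v ∈ supp x, Real.log (Ideal.absNorm v.asIdeal : ℝ)) / (Module.finrank ℚ K : ℝ)

/-- the points `P = (a : b : c)` over `K` with `a + b + c = 0`, `abc ≠ 0` and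
`exp ([K : ℚ] rad(P)) ≤ X`, of any height; `exp ([K : ℚ] rad(P))` is the norm of the product of
the primes in `I_K(P)` -/
def Points (K : Type) [Field K] [NumberField K] (X : ℝ) :
    Set (Projectivization K (Fin 3 → K)) :=
  {P | ∃ (x : Fin 3 → K) (hx : x ≠ 0), P = Projectivization.mk K x hx ∧ x 0 + x 1 + x 2 = 0 ∧
    x 0 * x 1 * x 2 ≠ 0 ∧ Real.exp ((Module.finrank ℚ K : ℝ) * rad x) ≤ X}

/-- For every `n` there are `C` and `k` such that over every number field of degree `n` there are,
for `X ≥ 16`, at most `C X (log log X) ^ k / log X` points `P` with `a + b + c = 0`, `abc ≠ 0` whose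
radical has norm at most `X`. -/
theorem result (n : ℕ) : ∃ (C : ℝ) (k : ℕ), ∀ (K : Type) [Field K] [NumberField K],
    Module.finrank ℚ K = n → ∀ X : ℝ, 16 ≤ X →
      (Points K X).Finite ∧
      ((Points K X).ncard : ℝ) ≤ C * X * Real.log (Real.log X) ^ k / Real.log X := by
  obtain ⟨C, k, hC, h⟩ := Pool.Agent.TH876.Loc.count_all n
  refine ⟨C, k, ?_⟩
  intro K _ _ hn X hX
  have hX0 : 0 < X := by linarith
  have he := Pool.Agent.TH876.Loc.log_facts hX
  have he1 := Real.exp_pos 1
  have hL : 0 < Real.log X := by linarith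
  have hll : 0 ≤ Real.log (Real.log X) := by
    refine Real.log_nonneg ?_
    have := Real.exp_one_gt_d9
    linarith
  have hd : (Module.finrank ℚ K : ℝ) ≠ 0 := by
    have : 0 < Module.finrank ℚ K := Module.finrank_pos
    exact_mod_cast this.ne'
  have h1 := Pool.Agent.TH876.Loc.transfer (Points K X)
    (fun t => Pool.Agent.TH876.Loc.nn (Pool.Agent.TH876.Loc.sp t) ≤ X)
    (C * X / Real.log X * Real.log (Real.log X) ^ k) (by positivity) (by
      rintro P ⟨x, hx, hP, hs, hne, hr⟩
      refine ⟨x, hx, hP, hs, hne, ?_⟩
      unfold rad at hr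
      rw [Pool.Agent.TH876.Loc.exp_log_nn (x := x 0 / x 1) (I := supp x)
        (Pool.Agent.TH876.Loc.sp_of_triple hs hne) hd] at hr
      exact hr)
    (fun E hE => h K hn X hX E hE)
  refine ⟨h1.1, h1.2.trans (le_of_eq (by ring))⟩

end Pool.Agent.Results.MP_a793bb_nt.PointsByRadical
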