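import Mathlib
import Pool.Agent.TH194.NF.Main

/-!
The abc equation over a number field in random multiplicative groups.

Let `K` be a number field of degree `d`. The algebraic integers of `K` are given by their `d`
coordinates in a fixed integral basis. In every box of `ℤ^(kd)` whose sides are at least `N` all but
a proportion `N ^ (-δ / d)` of the points, read as `k`-tuples `α_1, ..., α_k` of algebraic
integers, have the following property: no combination `c_1 u_1 + ... + c_M u_M` vanishes, where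
the `u_i` are elements of the multiplicative group generated by `α_1, ..., α_k` and the
coefficients `c_i` are algebraic integers with coordinates at most `exp ((log N) ^ (1 - ε))` and
with `c_1 + ... + c_M ≠ 0`. The constant `δ > 0` is absolute.
-/

set_option autoImplicit false

namespace Pool.Agent.Results.MP_a793bb_nt.RandomGroups

open NumberField

section

variable {K : Type} [Field K] [NumberField K] {d : ℕ} (b : Module.Basis (Fin d) ℤ (𝓞 K))

/-- the algebraic integer with the coordinates `v` in the integral basis `b`, as an element of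
`K` -/
noncomputable def intg (v : Fin d → ℤ) : K := ∑ j, (v j : K) * algebraMap (𝓞 K) K (b j)

/-- the multiplicative group generated by the algebraic integers with the coordinates
`z 0, ..., z (k - 1)` (if none of them is zero) -/
def grp {k : ℕ} (z : Fin k → Fin d → ℤ) : Set K :=
  {u | ∃ x : Fin k → ℤ, u = ∏ l, intg b (z l) ^ x l}

end

theorem result : ∃ δ : ℝ, 0 < δ ∧
    ∀ (K : Type) [Field K] [NumberField K] (d : ℕ) (b : Module.Basis (Fin d) ℤ (𝓞 K))
      (k M : ℕ) (ε : ℝ), 1 ≤ M → 0 < ε → ∃ N₀ : ℕ, ∀ N : ℕ, N₀ ≤ N →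
      ∀ (a : Fin k → Fin d → ℤ) (s : Fin k → Fin d → ℕ), (∀ l j, N ≤ s l j) →
      (({z : Fin k → Fin d → ℤ | (∀ l j, a l j < z l j ∧ z l j ≤ a l j + s l j) ∧
        ¬ ((∀ l, intg b (z l) ≠ 0) ∧
          ∀ (u : Fin M → K) (c : Fin M → 𝓞 K), (∀ i, u i ∈ grp b z) →
            (∀ i j, |((b.repr (c i) j : ℤ) : ℝ)| ≤ Real.exp (Real.log N ^ (1 - ε))) →
            ∑ i, c i ≠ 0 → ∑ i, algebraMap (𝓞 K) K (c i) * u i ≠ 0)}.ncard : ℕ) : ℝ) ≤
        (N : ℝ) ^ (-(δ / d)) * ∏ l, ∏ j, (s l j : ℝ) := by
  obtain ⟨δ, hδ, h⟩ := Pool.Agent.TH194.NF.main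
  refine ⟨δ, hδ, fun K _ _ d b k M ε hM hε => ?_⟩
  obtain ⟨N₀, hN₀⟩ := h K d b k M ε hM hε
  refine ⟨N₀, fun N hN a s hs => ?_⟩
  refine le_trans (le_of_eq ?_) (hN₀ N hN a s hs)
  congr 2
  ext z
  simp only [Set.mem_setOf_eq]
  apply and_congr_right
  intro _
  rw [Pool.Agent.TH194.NF.Bad, Set.mem_setOf_eq]
  constructor
  · intro h1
    by_contra h2
    push Not at h2
    apply h1
    refine ⟨h2.1, fun u c hu hc hs hsum => ?_⟩
    choose x hx using hu
    apply h2.2 x c hc hs
    rw [← hsum]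
    apply Finset.sum_congr rfl
    intro i _
    rw [hx i]
    rfl
  · rintro (⟨l, hl⟩ | ⟨x, c, h1, h2, h3⟩) ⟨h4, h5⟩
    · exact h4 l hl
    · exact h5 (fun i => ∏ l, intg b (z l) ^ x i l) c (fun i => ⟨x i, rfl⟩) h1 h2 h3

end Pool.Agent.Results.MP_a793bb_nt.RandomGroups
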