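import Pool.Agent.TH876.LT.Local
import Pool.Agent.TH876.LT.Large
import Pool.Agent.TH876.LT.FinL

/-!
# Counting functions truncated at a level `κ`, points of any height

`K` is a number field, `S` a finite set of primes, `D = a 0 + ... + a (q - 1)` a sum of `q ≥ 3`
different `K`-rational points of the projective line, so that `K_X + D` has degree `q - 2`. The
counting function is truncated at the level `κ ≥ 1` (at most `κ log N(v)` at the prime `v`).
For `q = 3` and the points `0, -1, ∞` the points of the line are the points `(a : b : c)` with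
`a + b + c = 0` (`x = a / b`), and for `κ = 1` the counting function is the radical of `(a : b : c)`.
-/

set_option autoImplicit false

namespace Pool.Agent.Results.MP_a793bb_nt.TruncationLevel

open NumberField IsDedekindDomain

variable {K : Type} [Field K] [NumberField K]

/-- the linear form vanishing at the point `(a 0 : a 1)` -/
def form (a x : Fin 2 → K) : K := a 0 * x 1 - a 1 * x 0

/-- the local height of `(x 0 : x 1)` relative to the point `(a 0 : a 1)`, at the prime `v` -/
noncomputable def localHeight (v : HeightOneSpectrum (𝓞 K)) (a x : Fin 2 → K) : ℝ :=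
  Real.log (max (FinitePlace.mk v (a 0)) (FinitePlace.mk v (a 1)) *
    max (FinitePlace.mk v (x 0)) (FinitePlace.mk v (x 1)) / FinitePlace.mk v (form a x))

/-- the counting function relative to `D = a 0 + ... + a (q - 1)`, outside `S`, truncated at the
level `κ` -/
noncomputable def counting (κ : ℝ) (S : Set (HeightOneSpectrum (𝓞 K))) {q : ℕ}
    (a : Fin q → Fin 2 → K) (x : Fin 2 → K) : ℝ :=
  ∑ᶠ v ∈ {v : HeightOneSpectrum (𝓞 K) | v ∉ S},
    ∑ i, min (κ * Real.log (Ideal.absNorm v.asIdeal : ℝ)) (localHeight v (a i) x)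

/-- the `K`-rational points `P` off `D`, of any height, with `exp N^(κ)_S(D, P) ≤ X` -/
def Points (κ : ℝ) (S : Set (HeightOneSpectrum (𝓞 K))) {q : ℕ} (a : Fin q → Fin 2 → K)
    (X : ℝ) : Set (Projectivization K (Fin 2 → K)) :=
  {P | ∃ (x : Fin 2 → K) (hx : x ≠ 0), P = Projectivization.mk K x hx ∧
    (∀ i, form (a i) x ≠ 0) ∧ Real.exp (counting κ S a x) ≤ X}

/-- Let `D` be the sum of `q ≥ 3` different `K`-rational points of the projective line over the
number field `K`, `S` a finite set of primes of `K`, `κ ≥ 1` real and `ε > 0`. For all `X ≥ 1` at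
most `C X ^ (max (2 / q) (3 / (q κ)) + ε)` `K`-rational points `P` off `D`, of any height, satisfy
`exp N^(κ)_S(D, P) ≤ X`. -/
theorem result (K : Type) [Field K] [NumberField K] (κ : ℝ) (hκ : 1 ≤ κ)
    (S : Set (HeightOneSpectrum (𝓞 K))) (hS : S.Finite) (q : ℕ) (hq : 3 ≤ q)
    (a : Fin q → Fin 2 → K) (ha : ∀ i j, i ≠ j → form (a i) (a j) ≠ 0) (ε : ℝ) (hε : 0 < ε) :
    ∃ C : ℝ, ∀ X : ℝ, 1 ≤ X → (Points κ S a X).Finite ∧
      ((Points κ S a X).ncard : ℝ) ≤ C * X ^ (max (2 / (q : ℝ)) (3 / (q * κ)) + ε) :=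
  Pool.Agent.TH876.LT.finalLevel K
    (fun κ hκ S hS q hq a ha ε hε => Pool.Agent.TH876.LT.large K
      (fun v _ _ ha hx h => Pool.Agent.TH876.LT.lh_int v ha hx h)
      (fun _ ha _ hx _ hg => Pool.Agent.TH876.LT.gd_tt ha hx hg)
      (fun _ ha => Pool.Agent.TH876.LT.hgt_tt_ge ha) κ hκ S hS q hq a ha ε hε)
    (fun v _ _ ha hx h => Pool.Agent.TH876.LT.lh_int v ha hx h) κ hκ S hS q hq a ha ε hε

end Pool.Agent.Results.MP_a793bb_nt.TruncationLevel
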